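import Mathlib

set_option autoImplicit false

namespace Pool.Agent.Results.MP_a5fab4_co.Split

/-- split graph: clique on `0..14`, independent set `15..24` -/
def adjB (a b : ℕ) : Bool :=
  a != b && ((a < 15 && b < 15) || ((a < 15 || b < 15) && (a + b) % 5 < 3))

def G : SimpleGraph (Fin 25) where
  Adj a b := adjB a.val b.val = true
  symm := ⟨by decide +kernel⟩
  loopless := ⟨by decide +kernel⟩

instance : DecidableRel G.Adj := fun a b => inferInstanceAs (Decidable (adjB a.val b.val = true))

def TI (x : Fin 25) : Finset (Fin 25) := Finset.univ.filter fun v => ¬ G.Adj x v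
def TC (y : Fin 25) : Finset (Fin 25) := Finset.univ.filter fun v => v = y ∨ G.Adj y v
def XX : Finset (Fin 25) := Finset.univ.filter fun v => v.val < 15
def YY : Finset (Fin 25) := Finset.univ.filter fun v => ¬ v.val < 15

theorem fI : ∀ x : Fin 25, x.val < 15 → (TI x).card = 5 ∧
    ∀ u ∈ TI x, ∀ v ∈ TI x, ¬ G.Adj u v := by decide +kernel

theorem fC : ∀ y : Fin 25, ¬ y.val < 15 → (TC y).card = 10 ∧
    ∀ u ∈ TC y, ∀ v ∈ TC y, u ≠ v → G.Adj u v := by decide +kernel

theorem fX : XX.card = 15 ∧ ∀ u ∈ XX, ∀ v ∈ XX, u ≠ v → G.Adj u v := by decide +kernel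

theorem fY : YY.card = 10 ∧ ∀ u ∈ YY, ∀ v ∈ YY, ¬ G.Adj u v := by decide +kernel

theorem big {P : Set (Fin 25) → Prop} {S : Set (Fin 25)} (hS : Maximal P S) (T : Finset (Fin 25))
    (hT : P ↑T) (hsub : S ⊆ ↑T) : S.ncard = T.card := by
  have : S = ↑T := Set.Subset.antisymm hsub (hS.2 hT hsub)
  rw [this, Set.ncard_coe_finset]

theorem result :
    ¬ ∀ l m : ℕ, 0 < l → 0 < m → m / 2 ≤ l → l ≤ m →
      IsGreatest {n : ℕ | ∀ H : SimpleGraph (Fin n),
        (∃ S : Set (Fin n), Maximal H.IsIndepSet S ∧ S.ncard ≤ l) ∨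
        (∃ S : Set (Fin n), Maximal H.IsClique S ∧ S.ncard ≤ m)} (2 * (l + m) - 1) := by
  intro h
  have h1 := (h 4 9 (by norm_num) (by norm_num) (by norm_num) (by norm_num)).1
  rcases h1 G with ⟨S, hS, hc⟩ | ⟨S, hS, hc⟩
  · by_cases hx : ∃ x ∈ S, x.val < 15
    · obtain ⟨x, hxS, hx⟩ := hx
      have := big hS (TI x) (fun u hu v hv _ => (fI x hx).2 u hu v hv) (by
        intro v hv
        simp only [TI, Finset.coe_filter, Finset.mem_univ, true_and, Set.mem_setOf_eq]
        by_cases e : x = v
        · subst e; exact G.irrefl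
        · exact hS.1 hxS hv e)
      rw [(fI x hx).1] at this
      omega
    · have := big hS YY (fun u hu v hv _ => fY.2 u hu v hv) (by
        intro v hv
        simp only [YY, Finset.coe_filter, Finset.mem_univ, true_and, Set.mem_setOf_eq]
        exact fun hlt => hx ⟨v, hv, hlt⟩)
      rw [fY.1] at this
      omega
  · by_cases hy : ∃ y ∈ S, ¬ y.val < 15
    · obtain ⟨y, hyS, hy⟩ := hy
      have := big hS (TC y) (fun u hu v hv e => (fC y hy).2 u hu v hv e) (by
        intro v hv
        simp only [TC, Finset.coe_filter, Finset.mem_univ, true_and, Set.mem_setOf_eq]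
        by_cases e : y = v
        · exact Or.inl e.symm
        · exact Or.inr (hS.1 hyS hv e))
      rw [(fC y hy).1] at this
      omega
    · have := big hS XX (fun u hu v hv e => fX.2 u hu v hv e) (by
        intro v hv
        simp only [XX, Finset.coe_filter, Finset.mem_univ, true_and, Set.mem_setOf_eq]
        by_contra hlt
        exact hy ⟨v, hv, hlt⟩)
      rw [fX.1] at this
      omega

end Pool.Agent.Results.MP_a5fab4_co.Split
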